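import Pool.Agent.ARC.StmtsU

set_option autoImplicit false

/-! Squad ARC, row DEC: decay of eigenfunctions. -/

namespace Pool.Agent.ARC.H74

open scoped BigOperators InnerProductSpace
open Pool.Agent.THS Pool.Agent.ZES Pool.Agent.ARC

lemma growth {V : Type} [NormedAddCommGroup V] [InnerProductSpace ℂ V] (u x : V) (s : ℂ) :
    ‖x + s • u‖ ^ 2 / 2 - (s * inner ℂ u x + s ^ 2 * ((‖u‖ ^ 2 : ℝ) : ℂ) / 2).re =
      ‖x‖ ^ 2 / 2 + 2 * s.im * (inner ℂ u x).im + s.im ^ 2 * ‖u‖ ^ 2 := by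
  have h1 : ‖x + s • u‖ ^ 2 = ‖x‖ ^ 2 + 2 * (inner ℂ x (s • u)).re + ‖s • u‖ ^ 2 := by
    have := @norm_add_sq ℂ V _ _ _ x (s • u)
    rw [this]
    rfl
  have h2 : inner ℂ x (s • u) = s * (starRingEnd ℂ) (inner ℂ u x) := by
    rw [inner_smul_right, inner_conj_symm]
  have h3 : ‖s • u‖ ^ 2 = (s.re ^ 2 + s.im ^ 2) * ‖u‖ ^ 2 := by
    rw [norm_smul, mul_pow, ← Complex.normSq_eq_norm_sq, Complex.normSq_apply]
    ring
  rw [h1, h2, h3]
  have h4 : (s * (starRingEnd ℂ) (inner ℂ u x)).re =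
      s.re * (inner ℂ u x).re + s.im * (inner ℂ u x).im := by
    rw [Complex.mul_re, Complex.conj_re, Complex.conj_im]
    ring
  have h5 : (s * inner ℂ u x + s ^ 2 * ((‖u‖ ^ 2 : ℝ) : ℂ) / 2).re =
      s.re * (inner ℂ u x).re - s.im * (inner ℂ u x).im +
        (s.re ^ 2 - s.im ^ 2) * ‖u‖ ^ 2 / 2 := by
    have e1 : s ^ 2 * ((‖u‖ ^ 2 : ℝ) : ℂ) / 2 = ((‖u‖ ^ 2 / 2 : ℝ) : ℂ) * s ^ 2 := by
      push_cast; ring
    rw [Complex.add_re, Complex.mul_re, e1, Complex.re_ofReal_mul, sq s, Complex.mul_re]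
    ring
  rw [h4, h5]
  ring

theorem dec (h1 : Dc1Stmt) : DecStmt := by
  intro V _ _ n κ S D u F hn hS hD hu hu1 hF hNB htv x hj
  have hn0 : (n : ℂ) ≠ 0 := by
    have : n ≠ 0 := by omega
    exact_mod_cast this
  obtain ⟨G, hG⟩ : ∃ G : ℂ → ℂ, ∀ s, G s = F (x + s • u) *
      Complex.exp (-(Real.pi * (n : ℂ) * (s * inner ℂ u x + s ^ 2 * ((‖u‖ ^ 2 : ℝ) : ℂ) / 2))) :=
    ⟨_, fun s => rfl⟩
  have hGd : Differentiable ℂ G := by
    have : G = fun s => F (x + s • u) *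
      Complex.exp (-(Real.pi * (n : ℂ) * (s * inner ℂ u x + s ^ 2 * ((‖u‖ ^ 2 : ℝ) : ℂ) / 2))) :=
      funext hG
    rw [this]
    apply Differentiable.mul
    · exact hF.comp (by fun_prop)
    · fun_prop
  have hper : ∀ s : ℂ, G (s + 1 / (n : ℂ)) =
      Complex.exp (2 * Real.pi * Complex.I * ((κ : ℤ) : ℂ) / (n : ℂ)) * G s := by
    intro s
    have e1 := congrFun htv (x + s • u)
    simp only [Pi.smul_apply, smul_eq_mul, tv, fr, rt] at e1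
    have e2 : x + s • u + (n : ℂ)⁻¹ • u = x + (s + 1 / (n : ℂ)) • u := by
      rw [add_smul, one_div, add_assoc]
    rw [e2] at e1
    have hal : al (Real.pi * (n : ℝ)) ((n : ℂ)⁻¹ • u) (x + s • u) ≠ 0 := by
      unfold al
      exact Complex.exp_ne_zero _
    have e3 : F (x + (s + 1 / (n : ℂ)) • u) =
        Complex.exp (2 * Real.pi * Complex.I * (κ : ℂ) / (n : ℂ)) * F (x + s • u) *
          al (Real.pi * (n : ℝ)) ((n : ℂ)⁻¹ • u) (x + s • u) := by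
      rw [← e1, mul_assoc, inv_mul_cancel₀ hal, mul_one]
    rw [hG, hG, e3]
    have e4 : al (Real.pi * (n : ℝ)) ((n : ℂ)⁻¹ • u) (x + s • u) *
        Complex.exp (-(Real.pi * (n : ℂ) * ((s + 1 / (n : ℂ)) * inner ℂ u x +
          (s + 1 / (n : ℂ)) ^ 2 * ((‖u‖ ^ 2 : ℝ) : ℂ) / 2))) =
        Complex.exp (-(Real.pi * (n : ℂ) * (s * inner ℂ u x +
          s ^ 2 * ((‖u‖ ^ 2 : ℝ) : ℂ) / 2))) := by
      unfold al
      rw [← Complex.exp_add]
      congr 1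
      have e5 : inner ℂ u u = ((‖u‖ ^ 2 : ℝ) : ℂ) := by
        rw [inner_self_eq_norm_sq_to_K]
        push_cast
        rfl
      rw [inner_smul_left, inner_add_right, inner_smul_right, e5, norm_smul, norm_inv]
      simp only [map_inv₀, Complex.conj_natCast, Complex.norm_natCast]
      push_cast
      field_simp
      ring
    rw [mul_assoc, e4]
    push_cast
    ring
  have hgr : ∀ s : ℂ, ‖G s‖ ≤ (S * Real.exp (Real.pi * (n : ℝ) * ‖x‖ ^ 2 / 2)) *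
      Real.exp (2 * Real.pi * s.im * ((n : ℝ) * (inner ℂ u x).im) +
        Real.pi * (n : ℝ) * (‖u‖ ^ 2) * s.im ^ 2) := by
    intro s
    rw [hG, norm_mul, Complex.norm_exp]
    have e1 : (-(Real.pi * (n : ℂ) * (s * inner ℂ u x + s ^ 2 * ((‖u‖ ^ 2 : ℝ) : ℂ) / 2))).re =
        -(Real.pi * n * (s * inner ℂ u x + s ^ 2 * ((‖u‖ ^ 2 : ℝ) : ℂ) / 2).re) := by
      have : (Real.pi * (n : ℂ)) = ((Real.pi * n : ℝ) : ℂ) := by push_cast; ring
      rw [Complex.neg_re, this, Complex.re_ofReal_mul]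
    rw [e1]
    calc ‖F (x + s • u)‖ * Real.exp (-(Real.pi * n *
          (s * inner ℂ u x + s ^ 2 * ((‖u‖ ^ 2 : ℝ) : ℂ) / 2).re))
        ≤ (S * Real.exp (Real.pi * (n : ℝ) * ‖x + s • u‖ ^ 2 / 2)) * Real.exp (-(Real.pi * n *
          (s * inner ℂ u x + s ^ 2 * ((‖u‖ ^ 2 : ℝ) : ℂ) / 2).re)) :=
          mul_le_mul_of_nonneg_right (hNB _) (Real.exp_pos _).le
      _ = (S * Real.exp (Real.pi * (n : ℝ) * ‖x‖ ^ 2 / 2)) *
          Real.exp (2 * Real.pi * s.im * ((n : ℝ) * (inner ℂ u x).im) +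
            Real.pi * (n : ℝ) * (‖u‖ ^ 2) * s.im ^ 2) := by
          have e2 := growth u x s
          have e3 : Real.pi * (n : ℝ) * ‖x + s • u‖ ^ 2 / 2 + -(Real.pi * n *
              (s * inner ℂ u x + s ^ 2 * ((‖u‖ ^ 2 : ℝ) : ℂ) / 2).re) =
              Real.pi * (n : ℝ) * ‖x‖ ^ 2 / 2 + (2 * Real.pi * s.im * ((n : ℝ) * (inner ℂ u x).im) +
                Real.pi * (n : ℝ) * (‖u‖ ^ 2) * s.im ^ 2) := by
            linear_combination (Real.pi * (n : ℝ)) * e2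
          rw [mul_assoc S, mul_assoc S, ← Real.exp_add, ← Real.exp_add, e3]
  have hu0 : 0 < ‖u‖ ^ 2 := by
    have := norm_pos_iff.2 hu
    positivity
  have hmain := h1 n (κ : ℤ) G (S * Real.exp (Real.pi * (n : ℝ) * ‖x‖ ^ 2 / 2))
    ((n : ℝ) * (inner ℂ u x).im) (‖u‖ ^ 2) D hn (by positivity) hu0 hu1 hD hGd hper hgr hj
  have hG0 : G 0 = F x := by
    rw [hG]
    simp
  rw [hG0] at hmain
  calc ‖F x‖ ≤ 4 * (S * Real.exp (Real.pi * (n : ℝ) * ‖x‖ ^ 2 / 2)) *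
        Real.exp (-(Real.pi * D ^ 2 / ((n : ℝ) * ‖u‖ ^ 2))) := hmain
    _ = 4 * S * Real.exp (Real.pi * (n : ℝ) * ‖x‖ ^ 2 / 2) *
        Real.exp (-(Real.pi * D ^ 2 / ((n : ℝ) * ‖u‖ ^ 2))) := by ring

end Pool.Agent.ARC.H74
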