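import Pool.Agent.ARC.Stmts

set_option autoImplicit false

/-! Squad ARC, row SLS: slices of the theta series. -/

namespace Pool.Agent.ARC.H74

open scoped BigOperators
open Pool.Agent.THS Pool.Agent.ZES Pool.Agent.ARC
open Pool.Agent.SZG (Ch)

lemma siegel_two {g : ℕ} {τ : Matrix (Fin g) (Fin g) ℂ} (h : Siegel τ) :
    Siegel ((2 : ℂ) • τ) := by
  obtain ⟨h1, h2⟩ := h
  refine ⟨by rw [Matrix.transpose_smul, h1], ?_⟩
  have h3 : ((2 : ℂ) • τ).map Complex.im = (2 : ℝ) • (τ.map Complex.im) := by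
    ext i j
    simp [Matrix.map_apply, Matrix.smul_apply, Complex.mul_im]
  rw [h3]
  exact h2.smul (by norm_num)

lemma sum_f (htbd : TbdStatement) {g : ℕ} {τ : Matrix (Fin g) (Fin g) ℂ} (hτ : Siegel τ)
    (s : Fin g → ℝ) (z : Fin g → ℂ) : Summable (fun n : Fin g → ℤ => ‖tht τ s z n‖) := by
  obtain ⟨u, hu, hb⟩ := htbd g τ hτ (∑ i, |s i| + ∑ i, ‖z i‖)
  refine Summable.of_nonneg_of_le (fun n => norm_nonneg _) (fun n => hb s z ?_ ?_ n) hu
  · intro i
    have h1 : |s i| ≤ ∑ i, |s i| :=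
      Finset.single_le_sum (fun i _ => abs_nonneg (s i)) (Finset.mem_univ i)
    have h2 : 0 ≤ ∑ i, ‖z i‖ := Finset.sum_nonneg fun i _ => norm_nonneg _
    linarith
  · intro i
    have h1 : ‖z i‖ ≤ ∑ i, ‖z i‖ :=
      Finset.single_le_sum (fun i _ => norm_nonneg (z i)) (Finset.mem_univ i)
    have h2 : 0 ≤ ∑ i, |s i| := Finset.sum_nonneg fun i _ => abs_nonneg _
    linarith

lemma term (g : ℕ) (τ : Matrix (Fin g) (Fin g) ℂ) (a : Ch g) (h : Fin g → ℤ) (j : ℤ)
    (w : Fin g → ℂ) (s : ℂ) (P : Fin g → ℤ) (n : Fin g → ℤ) (hn : ∑ i, h i * n i = j) :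
    tht τ (hv a) (fun i => 2 * (2 * (w i + s * (h i : ℂ) + (P i : ℂ)))) n =
      Complex.exp (8 * Real.pi * Complex.I * s * ((j : ℂ) + ((dt h (hv a) : ℝ) : ℂ))) *
        tht τ (hv a) (fun i => 2 * (2 * w i)) n := by
  obtain ⟨K, hK⟩ : ∃ K : ℤ, K = ∑ i, (4 * (n i * P i) + 2 * (((a i).val : ℤ) * P i)) := ⟨_, rfl⟩
  have e1 : 2 * Real.pi * Complex.I * ∑ i, ((n i : ℂ) + ((hv a i : ℝ) : ℂ)) *
      (2 * (2 * (w i + s * (h i : ℂ) + (P i : ℂ)))) =
      8 * Real.pi * Complex.I * s * ((j : ℂ) + ((dt h (hv a) : ℝ) : ℂ)) +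
      2 * Real.pi * Complex.I * ∑ i, ((n i : ℂ) + ((hv a i : ℝ) : ℂ)) * (2 * (2 * w i)) +
      (K : ℂ) * (2 * Real.pi * Complex.I) := by
    have e2 : (j : ℂ) = ∑ i, (h i : ℂ) * (n i : ℂ) := by
      rw [← hn]; push_cast; rfl
    have e3 : ((dt h (hv a) : ℝ) : ℂ) = ∑ i, (h i : ℂ) * ((hv a i : ℝ) : ℂ) := by
      unfold dt; push_cast; rfl
    have e4 : (K : ℂ) = ∑ i, (4 * ((n i : ℂ) * (P i : ℂ)) + 4 * (((hv a i : ℝ) : ℂ) * (P i : ℂ))) := by
      rw [hK]
      push_cast
      apply Finset.sum_congr rfl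
      intro i _
      unfold hv
      push_cast
      ring
    rw [e2, e3, e4, ← Finset.sum_add_distrib, Finset.mul_sum, Finset.mul_sum, Finset.mul_sum,
      Finset.sum_mul, ← Finset.sum_add_distrib, ← Finset.sum_add_distrib]
    apply Finset.sum_congr rfl
    intro i _
    ring
  unfold tht
  rw [e1, ← Complex.exp_add]
  have e5 : ∀ A B C : ℂ, A + (B + C + (K : ℂ) * (2 * Real.pi * Complex.I)) =
      (B + (A + C)) + (K : ℂ) * (2 * Real.pi * Complex.I) := by
    intro A B C; ring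
  rw [e5, Complex.exp_add, Complex.exp_int_mul_two_pi_mul_I, mul_one]

theorem sls (htbd : TbdStatement) : SlsStmt := by
  intro g τ hτ a h
  constructor
  · intro w
    obtain ⟨f, hf⟩ : ∃ f : (Fin g → ℤ) → ℂ, f = fun n =>
      tht ((2 : ℂ) • τ) (hv a) (fun i => 2 * (2 * w i)) n := ⟨_, rfl⟩
    have hfs : Summable (fun n => ‖f n‖) := by
      rw [hf]
      exact sum_f htbd (siegel_two hτ) (hv a) (fun i => 2 * (2 * w i))
    obtain ⟨F, hF⟩ : ∃ F : ℤ × (Fin g → ℤ) → ℂ, F = fun p =>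
      if ∑ i, h i * p.2 i = p.1 then f p.2 else 0 := ⟨_, rfl⟩
    obtain ⟨φ, hφ⟩ : ∃ φ : (Fin g → ℤ) → ℤ × (Fin g → ℤ), φ = fun n =>
      (∑ i, h i * n i, n) := ⟨_, rfl⟩
    have hinj : Function.Injective φ := by
      intro n m hnm
      rw [hφ] at hnm
      exact (Prod.ext_iff.1 hnm).2
    have hout : ∀ p, p ∉ Set.range φ → F p = 0 := by
      intro p hp
      rw [hF]
      by_cases hc : ∑ i, h i * p.2 i = p.1
      · exact absurd ⟨p.2, by rw [hφ]; exact Prod.ext hc rfl⟩ hp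
      · simp only [if_neg hc]
    have hFφ : ∀ n, F (φ n) = f n := by
      intro n
      rw [hF, hφ]
      simp
    have hns : Summable (fun p => ‖F p‖) := by
      rw [← hinj.summable_iff (f := fun p => ‖F p‖)]
      · have : ((fun p => ‖F p‖) ∘ φ) = fun n => ‖f n‖ := by
          funext n
          simp only [Function.comp_apply, hFφ]
        rw [this]
        exact hfs
      · intro p hp
        simp only [hout p hp, norm_zero]
    have hFs : Summable F := hns.of_norm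
    have hsl : ∀ j, sl τ a h j w = ∑' n, F (j, n) := by
      intro j
      unfold sl
      rw [hF, hf]
    constructor
    · refine Summable.of_nonneg_of_le (fun j => norm_nonneg _) ?_ hns.prod
      intro j
      rw [hsl j]
      exact norm_tsum_le_tsum_norm (hns.prod_factor j)
    · have h1 : ∑' j, sl τ a h j w = ∑' p, F p := by
        rw [hFs.tsum_prod]
        exact tsum_congr hsl
      have h2 : ∑' p, F p = ∑' n, f n := by
        rw [← hinj.tsum_eq (f := F)]
        · exact tsum_congr hFφ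
        · intro p hp
          by_contra hcon
          exact hp (hout p hcon)
      rw [h1, h2, hf]
      rfl
  · intro j w s P
    unfold sl
    rw [← tsum_mul_left]
    apply tsum_congr
    intro n
    by_cases hc : ∑ i, h i * n i = j
    · rw [if_pos hc, if_pos hc]
      exact term g _ a h j w s P n hc
    · rw [if_neg hc, if_neg hc, mul_zero]

end Pool.Agent.ARC.H74
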